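import Pool.Agent.X109.SH.B

/-!
# The Euler `♯`-sum `ζ^♯(2, 1_{d-3}, \bar 2)`

For every `d ≥ 3` one has `ζ^♯(2, 1_{d-3}, \bar 2) = 2 ∑_{N ≥ 1} (H_N - H_{2N}) / N^d`, and the identity
`ζ^♯(2, 1_{d-3}, \bar 2) = ζ(d+1)/2 - 2 ∑ ζ(m, n)` (`m + n = d + 1`, `m ≥ 1`, `n ≥ 2` even) holds if and
only if `d` is even.

Proof. With `T D (m) = D(m) + 2 ∑_{n < m} D(n)` the `♯`-sum is `∑_m (-1)^m m^(-2) (T m⁻¹)^(d-3) T (2 m^(-2))`.
The functionals `Φ_N(f) = ∑_{m ≤ N} (-1)^m C(N,m) / C(N+m,m) f(m)` satisfy `N Φ_N(T D) = Φ_N(m D)` and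
`Φ_N(f) - Φ_{N-1}(f) = N^(-2) Φ_N(m² f)`, and `Φ_N(1/m) = H_N - H_{2N}`. The double zeta values are summed
as a geometric series.
-/

set_option autoImplicit false

namespace Pool.Agent.Results.MP_27090e_nt.SharpSumParity

open Finset Filter Topology

/-- An index entry: `(a, ε)` with `ε = 1` is `a`, and with `ε = -1` it is `\bar a`. -/
abbrev Entry : Type := ℕ × ℤ

/-- `m ⊕ n`: absolute values add, signs multiply -/
def oplus (s t : Entry) : Entry := (s.1 + t.1, s.2 * t.2)

/-- Strings are written from the LAST entry (largest summation variable) to the FIRST one.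
`trunc [s_k, …, s_1] m = ∑_{0 < n_1 < ⋯ < n_k < m} ∏ ε(s_j)^{n_j} / n_j^{|s_j|}`. -/
noncomputable def trunc : List Entry → ℕ → ℝ
  | [], _ => 1
  | s :: l, m => ∑ n ∈ Finset.Ico 1 m, (s.2 : ℝ) ^ n / (n : ℝ) ^ s.1 * trunc l n

/-- `euler [s_k, …, s_1] = ζ(s_1, …, s_k) = ∑_{0 < n_1 < ⋯ < n_k} ∏ ε(s_j)^{n_j} / n_j^{|s_j|}`, as the
sum over `n_k = n + 1` of the finite sums over `n_1, …, n_{k-1}`. -/
noncomputable def euler : List Entry → ℝ
  | [] => 1
  | s :: l => ∑' n : ℕ, (s.2 : ℝ) ^ (n + 1) / ((n + 1 : ℕ) : ℝ) ^ s.1 * trunc l (n + 1)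

/-- the `2^{k-1}` strings which arise from the string `s :: l` (with `k` entries) if every comma is
either kept or replaced by `⊕` -/
def merges : Entry → List Entry → List (List Entry)
  | s, [] => [[s]]
  | s, t :: l => (merges t l).map (fun u => s :: u) ++ merges (oplus s t) l

/-- the Euler `♯`-sum `ζ^♯` of the string `s :: l`: the sum of `2^{dep(t)} ζ(t)` over these strings -/
noncomputable def sharp (s : Entry) (l : List Entry) : ℝ :=
  ((merges s l).map fun t => 2 ^ t.length * euler t).sum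

/-! ### Convergence -/

/-- admissible entries -/
def Ok (s : Entry) : Prop := 1 ≤ s.1 ∧ |(s.2 : ℝ)| ≤ 1

theorem term_bound {s : Entry} (hs : |(s.2 : ℝ)| ≤ 1) (n : ℕ) (a : ℕ) (ha : a ≤ s.1) (hn : 1 ≤ n) :
    |(s.2 : ℝ) ^ n / (n : ℝ) ^ s.1| ≤ 1 / (n : ℝ) ^ a := by
  have hn' : (1 : ℝ) ≤ n := by exact_mod_cast hn
  rw [abs_div, abs_pow, abs_of_pos (by positivity : (0 : ℝ) < (n : ℝ) ^ s.1)]
  apply div_le_div₀ zero_le_one (pow_le_one₀ (abs_nonneg _) hs) (by positivity)
  exact pow_le_pow_right₀ hn' ha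

theorem trunc_bound (l : List Entry) (hl : ∀ s ∈ l, Ok s) :
    ∃ C : ℝ, 0 ≤ C ∧ ∀ m, 1 ≤ m → |trunc l m| ≤ C * Real.sqrt m := by
  induction l with
  | nil =>
    refine ⟨1, zero_le_one, fun m hm => ?_⟩
    rw [trunc, abs_one, one_mul, Real.one_le_sqrt]
    exact_mod_cast hm
  | cons s l ih =>
    obtain ⟨C, hC, h⟩ := ih fun t ht => hl t (List.mem_cons_of_mem _ ht)
    have hs := hl s List.mem_cons_self
    refine ⟨2 * C, by positivity, fun m _ => ?_⟩
    rw [trunc]
    refine X109.SH.nested_bound _ C hC (fun n hn => ?_) m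
    have h1 := term_bound hs.2 n 1 hs.1 hn
    rw [pow_one] at h1
    have h2 := X109.SH.inv_mul_bound hn (h n hn)
    rw [abs_mul] at h2 ⊢
    have hn' : (0 : ℝ) < n := by exact_mod_cast hn
    rw [abs_of_pos (by positivity : (0 : ℝ) < 1 / n)] at h2
    exact (mul_le_mul_of_nonneg_right h1 (abs_nonneg _)).trans h2

/-- strings with last entry at least `2` -/
def Good (t : List Entry) : Prop := ∃ s u, t = s :: u ∧ 2 ≤ s.1 ∧ |(s.2 : ℝ)| ≤ 1 ∧ ∀ x ∈ u, Ok x

theorem tail_tendsto (s : Entry) (h2 : 2 ≤ s.1) (h1 : |(s.2 : ℝ)| ≤ 1) (g : ℕ → ℝ) (C : ℝ)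
    (hg : ∀ m, 1 ≤ m → |g m| ≤ C * Real.sqrt m) :
    Tendsto (fun M : ℕ => ∑ n ∈ Ico 1 M, (s.2 : ℝ) ^ n / (n : ℝ) ^ s.1 * g n) atTop
      (𝓝 (∑' n : ℕ, (s.2 : ℝ) ^ (n + 1) / ((n + 1 : ℕ) : ℝ) ^ s.1 * g (n + 1))) := by
  have hs : Summable fun n : ℕ => (s.2 : ℝ) ^ (n + 1) / ((n + 1 : ℕ) : ℝ) ^ s.1 * g (n + 1) := by
    refine Summable.of_norm_bounded (X109.SH.sqrt_summable C) fun n => ?_
    rw [norm_mul, Real.norm_eq_abs, Real.norm_eq_abs]
    have h3 := term_bound h1 (n + 1) 2 h2 (by omega)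
    have h4 := hg (n + 1) (by omega)
    calc _ ≤ 1 / ((n + 1 : ℕ) : ℝ) ^ 2 * (C * Real.sqrt ((n + 1 : ℕ) : ℝ)) :=
          mul_le_mul h3 h4 (abs_nonneg _) (by positivity)
      _ = _ := by push_cast; ring
  rw [← tendsto_add_atTop_iff_nat 1]
  refine hs.hasSum.tendsto_sum_nat.congr fun M => ?_
  rw [sum_Ico_eq_sum_range, Nat.add_sub_cancel]
  refine sum_congr rfl fun n _ => ?_
  rw [add_comm 1 n]

theorem euler_tendsto {t : List Entry} (ht : Good t) : Tendsto (fun M => trunc t M) atTop (𝓝 (euler t)) := by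
  obtain ⟨s, u, rfl, h2, h1, hu⟩ := ht
  obtain ⟨C, _, hC⟩ := trunc_bound u hu
  simp only [trunc, euler]
  exact tail_tendsto s h2 h1 (trunc u) C hC

theorem merges_good (l : List Entry) (hl : ∀ x ∈ l, Ok x) : ∀ s : Entry, 2 ≤ s.1 → |(s.2 : ℝ)| ≤ 1 →
    ∀ t ∈ merges s l, Good t := by
  induction l with
  | nil =>
    intro s h2 h1 t ht
    rw [merges, List.mem_singleton] at ht
    exact ⟨s, [], ht, h2, h1, by simp⟩
  | cons x l ih =>
    intro s h2 h1 t ht
    have hl' : ∀ y ∈ l, Ok y := fun y hy => hl y (List.mem_cons_of_mem _ hy)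
    have hx := hl x List.mem_cons_self
    rw [merges, List.mem_append, List.mem_map] at ht
    rcases ht with ⟨u, hu, rfl⟩ | ht
    · refine ⟨s, u, rfl, h2, h1, ?_⟩
      have key : ∀ (l : List Entry), (∀ y ∈ l, Ok y) → ∀ x : Entry, Ok x → ∀ u ∈ merges x l, ∀ y ∈ u, Ok y := by
        intro l
        induction l with
        | nil =>
          intro _ x hx u hu y hy
          rw [merges, List.mem_singleton] at hu
          rw [hu, List.mem_singleton] at hy
          rw [hy]
          exact hx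
        | cons z l ih2 =>
          intro hl x hx u hu y hy
          have hz := hl z List.mem_cons_self
          have hl' : ∀ y ∈ l, Ok y := fun y hy => hl y (List.mem_cons_of_mem _ hy)
          rw [merges, List.mem_append, List.mem_map] at hu
          rcases hu with ⟨v, hv, rfl⟩ | hu
          · rcases List.mem_cons.1 hy with rfl | hy
            · exact hx
            · exact ih2 hl' z hz v hv y hy
          · refine ih2 hl' (oplus x z) ⟨?_, ?_⟩ u hu y hy
            · exact le_add_right hx.1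
            · simp only [oplus, Int.cast_mul, abs_mul]
              exact mul_le_one₀ hx.2 (abs_nonneg _) hz.2
      exact key l hl' x hx u hu
    · refine ih hl' (oplus s x) (le_add_right h2) ?_ t ht
      simp only [oplus, Int.cast_mul, abs_mul]
      exact mul_le_one₀ h1 (abs_nonneg _) hx.2

/-! ### The `♯`-sum as an iterated sum -/

/-- the weights of the iterated sum -/
noncomputable def BL : List Entry → ℕ → ℝ
  | [] => fun _ => 2
  | t :: l => X109.SH.T fun k => (t.2 : ℝ) ^ k / (k : ℝ) ^ t.1 * BL l k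

theorem finite_sharp (l : List Entry) : ∀ (s : Entry) (M : ℕ),
    ((merges s l).map fun t => 2 ^ t.length * trunc t M).sum =
      ∑ n ∈ Ico 1 M, (s.2 : ℝ) ^ n / (n : ℝ) ^ s.1 * BL l n := by
  induction l with
  | nil =>
    intro s M
    simp only [merges, List.map_cons, List.map_nil, List.sum_cons, List.sum_nil, List.length_cons,
      List.length_nil, trunc, BL]
    rw [← sum_mul, ← sum_mul]
    ring
  | cons t l ih =>
    intro s M
    rw [merges, List.map_append, List.sum_append, ih (oplus s t) M, List.map_map]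
    have h1 : (List.map ((fun u : List Entry => 2 ^ u.length * trunc u M) ∘ fun u => s :: u) (merges t l)).sum =
        ∑ n ∈ Ico 1 M, (s.2 : ℝ) ^ n / (n : ℝ) ^ s.1 *
          (2 * ((merges t l).map fun u => 2 ^ u.length * trunc u n).sum) := by
      induction merges t l with
      | nil => simp
      | cons v L ihL =>
        rw [List.map_cons, List.sum_cons, ihL]
        simp only [List.map_cons, List.sum_cons, Function.comp, List.length_cons, trunc]
        rw [mul_sum, ← sum_add_distrib]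
        refine sum_congr rfl fun n _ => ?_
        ring
    rw [h1, ← sum_add_distrib]
    refine sum_congr rfl fun n hn => ?_
    rw [ih t n, BL, X109.SH.T]
    have hn' : (n : ℝ) ≠ 0 := by
      have := (mem_Ico.1 hn).1
      positivity
    simp only [oplus, Int.cast_mul, mul_pow, pow_add]
    field_simp
    ring

theorem sharp_eq (s : Entry) (l : List Entry) (h2 : 2 ≤ s.1) (h1 : |(s.2 : ℝ)| ≤ 1) (hl : ∀ x ∈ l, Ok x)
    (C : ℝ) (hC : ∀ m, 1 ≤ m → |BL l m| ≤ C * Real.sqrt m) :
    sharp s l = ∑' n : ℕ, (s.2 : ℝ) ^ (n + 1) / ((n + 1 : ℕ) : ℝ) ^ s.1 * BL l (n + 1) := by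
  have h3 : Tendsto (fun M => ((merges s l).map fun t => 2 ^ t.length * trunc t M).sum) atTop
      (𝓝 (sharp s l)) := by
    have key : ∀ L : List (List Entry), (∀ t ∈ L, Good t) →
        Tendsto (fun M => (L.map fun t => 2 ^ t.length * trunc t M).sum) atTop
          (𝓝 (L.map fun t => 2 ^ t.length * euler t).sum) := by
      intro L
      induction L with
      | nil => intro _; simp
      | cons t L ih =>
        intro h
        simp only [List.map_cons, List.sum_cons]
        exact ((euler_tendsto (h t List.mem_cons_self)).const_mul _).add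
          (ih fun u hu => h u (List.mem_cons_of_mem _ hu))
    exact key _ (merges_good l hl s h2 h1)
  simp only [finite_sharp] at h3
  exact tendsto_nhds_unique h3 (tail_tendsto s h2 h1 (BL l) C hC)

theorem BL_eq (r : ℕ) : ∀ m, 1 ≤ m → BL (List.replicate r ((1, 1) : Entry) ++ [(2, 1)]) m = X109.SH.B r m := by
  induction r with
  | zero =>
    intro m hm
    simp only [List.replicate_zero, List.nil_append, BL, X109.SH.B, X109.SH.T]
    simp
  | succ r ih =>
    intro m hm
    simp only [List.replicate_succ, List.cons_append, BL, X109.SH.B, X109.SH.T]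
    simp only [Int.cast_one, one_pow, pow_one]
    rw [ih m hm]
    congr 2
    refine sum_congr rfl fun k hk => ?_
    rw [ih k (mem_Ico.1 hk).1]

/-- **The identity holds exactly for even `d`.** -/
theorem result (d : ℕ) (hd : 3 ≤ d) :
    (sharp (2, -1) (List.replicate (d - 3) (1, 1) ++ [(2, 1)]) =
      1 / 2 * euler [(d + 1, 1)] -
        2 * ∑ n ∈ (Finset.Icc 2 d).filter (fun n => Even n), euler [(n, 1), (d + 1 - n, 1)]) ↔
    Even d := by
  obtain ⟨r, rfl⟩ : ∃ r, d = r + 3 := ⟨d - 3, by omega⟩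
  have e0 : r + 3 - 3 = r := by omega
  rw [e0]
  obtain ⟨C, hC, hB⟩ := X109.SH.B_bound r
  have h1 : sharp (2, -1) (List.replicate r (1, 1) ++ [(2, 1)]) =
      2 * ∑' N : ℕ, X109.SH.lam (N + 1) / ((N : ℝ) + 1) ^ (r + 3) := by
    rw [sharp_eq (2, -1) _ le_rfl (by simp) (by
        intro x hx
        rw [List.mem_append, List.mem_singleton] at hx
        rcases hx with hx | rfl
        · rw [List.eq_of_mem_replicate hx]
          exact ⟨le_rfl, by simp⟩
        · exact ⟨by norm_num, by simp⟩) C (fun m hm => by rw [BL_eq r m hm]; exact hB m hm)]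
    rw [← (X109.SH.main_series r).2.2]
    refine tsum_congr fun n => ?_
    rw [BL_eq r (n + 1) (by omega)]
    push_cast
    ring
  have h2 : euler [(r + 3 + 1, 1)] = X109.SH.zt (r + 3 + 1) := by
    simp only [euler, trunc, X109.SH.zt]
    refine tsum_congr fun n => ?_
    push_cast
    ring
  have h3 : ∀ m n : ℕ, euler [(n, 1), (m, 1)] = X109.SH.dz m n := by
    intro m n
    simp only [euler, trunc, X109.SH.dz]
    refine tsum_congr fun l => ?_
    simp
  have h4 : ∑ n ∈ (Finset.Icc 2 (r + 3)).filter (fun n => Even n), euler [(n, 1), (r + 3 + 1 - n, 1)] =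
      ∑ i ∈ range ((r + 3) / 2), X109.SH.dz (r + 3 + 1 - 2 * (i + 1)) (2 * (i + 1)) := by
    symm
    refine sum_nbij (fun i => 2 * (i + 1)) ?_ ?_ ?_ ?_
    · intro i hi
      rw [mem_range] at hi
      rw [mem_filter, mem_Icc]
      exact ⟨⟨by omega, by omega⟩, ⟨i + 1, by ring⟩⟩
    · intro i _ j _ hij
      simp only at hij
      omega
    · intro n hn
      rw [mem_coe, mem_filter, mem_Icc] at hn
      obtain ⟨⟨h5, h6⟩, k, hk⟩ := hn
      refine ⟨k - 1, ?_, ?_⟩
      · rw [mem_coe, mem_range]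
        omega
      · simp only
        omega
    · intro i _
      rw [h3]
  rw [h1, h2, h4]
  have h5 := X109.SH.compare (r + 3) hd
  rw [← h5]
  constructor
  · intro h
    linarith
  · intro h
    linarith

end Pool.Agent.Results.MP_27090e_nt.SharpSumParity
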